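import Pool.Agent.Results.MP_743798_lc.NonFrechetBelowB

/-!
# b-scales are Frechet when p equals b (for b-scales unbounded on every infinite set)
-/

open Cardinal Filter Set

namespace Pool.Agent.Helper50.Dow

open Pool.Agent.Results.MP_743798_lc.NonFrechetBelowB

/-- Enumerated b-scales which are unbounded on every infinite set of nodes. -/
structure RobustBScale (e : I → Node → ℕ) : Prop where
  increasing : ∀ x, Increasing (e x)
  le_iff : ∀ x y, x ≤ y ↔ LeStar (e x) (e y)
  root : ∀ (n : ℕ) (x : I), ∃ y, x ≤ y ∧ n < e y []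
  unbounded : ∀ Z : Set Node, Z.Infinite → ∀ g : Node → ℕ, ∃ x, ¬ {s ∈ Z | ¬ e x s ≤ g s}.Finite

/-- A robust b-scale exists. -/
lemma exists_robust : ∃ e : I → Node → ℕ, RobustBScale e := by
  obtain ⟨φ, hφ⟩ := exists_scale
  have hne : Nonempty I := by
    rw [← Cardinal.mk_ne_zero_iff, mk_I]
    exact (Cardinal.aleph0_pos.trans aleph0_lt_bnum).ne'
  -- the least element of the index set
  obtain ⟨z, -, hz⟩ := (wellFounded_lt (α := I)).has_min Set.univ ⟨hne.some, trivial⟩
  have hz' : ∀ x, z ≤ x := fun x => not_lt.1 (hz x trivial)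
  have hB := ff_isBScale hφ (fun _ => Set.univ) z
  refine ⟨ff φ (fun _ => Set.univ) z, ⟨fun x => hB.increasing _ ⟨x, rfl⟩, fun x y => ⟨fun h => ?_, fun h => ?_⟩,
    fun n x => ?_, fun Z hZ g => ?_⟩⟩
  · rcases h.eq_or_lt with rfl | h
    · simp [LeStar]
    · exact ff_leStar hφ _ z h
  · by_contra hc
    exact ff_not_leStar hφ _ z (not_le.1 hc) h
  · obtain ⟨y, hy, hn⟩ := hφ.root x n
    refine ⟨y, hy, ?_⟩
    rw [ff_high φ _ (hz' y)]
    exact hn
  · obtain ⟨f, ⟨x, rfl⟩, hf⟩ := ff_unb hφ (fun _ => Set.univ) z Z hZ g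
    exact ⟨x, hf⟩

/-! ### Regularity of b -/

lemma bounded_index (S : Set I) (hS : #S < bnum) : ∃ y : I, ∀ x ∈ S, x ≤ y := by
  obtain ⟨φ, hφ⟩ := exists_scale
  obtain ⟨g, hg⟩ := bounded_of_lt (φ '' S) (Cardinal.mk_image_le.trans_lt hS)
  obtain ⟨y, hy⟩ := hφ.unb g
  refine ⟨y, fun x hx => ?_⟩
  by_contra hc
  push Not at hc
  apply hy
  apply ((hφ.lt hc).union (hg (φ x) ⟨x, hx, rfl⟩)).subset
  intro k hk
  simp only [Set.mem_ofPred_eq, Set.mem_union] at hk ⊢
  omega

/-- Closure argument. -/
lemma exists_closed (Φ : Finset I → I) : ∃ γ : I, ∀ F : Finset I, (∀ x ∈ F, x < γ) → Φ F ≤ γ := by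
  have hne : Nonempty I := by
    rw [← Cardinal.mk_ne_zero_iff, mk_I]
    exact (Cardinal.aleph0_pos.trans aleph0_lt_bnum).ne'
  have hstep : ∀ x : I, ∃ y : I, x < y ∧ ∀ F : Finset I, (∀ w ∈ F, w < x) → Φ F ≤ y := by
    intro x
    have h1 : #(Set.range fun F : Finset (Set.Iio x) => Φ (F.map (Function.Embedding.subtype _))) < bnum := by
      refine Cardinal.mk_range_le.trans_lt ?_
      rcases finite_or_infinite (Set.Iio x) with hfin | hinf
      · have : Finite (Finset (Set.Iio x)) := inferInstance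
        exact (Cardinal.lt_aleph0_of_finite _).trans aleph0_lt_bnum
      · rw [Cardinal.mk_finset_of_infinite]
        exact Cardinal.mk_Iio_toType_ord_lt x
    obtain ⟨y1, hy1⟩ := bounded_index _ h1
    -- an element above x
    have h2 : ∃ y2 : I, x < y2 := by
      by_contra hc
      push Not at hc
      have h3 : (Set.univ : Set I) ⊆ insert x (Set.Iio x) := by
        intro w _
        rcases (hc w).eq_or_lt with h | h
        · left; exact h
        · right; exact h
      have h4 := (Cardinal.mk_le_mk_of_subset h3).trans (Cardinal.mk_insert_le)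
      rw [Cardinal.mk_univ, mk_I] at h4
      have h5 : #(Set.Iio x) + 1 < bnum := by
        apply Cardinal.add_lt_of_lt aleph0_lt_bnum.le (Cardinal.mk_Iio_toType_ord_lt x)
        exact Cardinal.one_lt_aleph0.trans aleph0_lt_bnum
      exact absurd h5 (not_lt.2 h4)
    obtain ⟨y2, hy2⟩ := h2
    refine ⟨max y1 y2, hy2.trans_le (le_max_right _ _), fun F hF => ?_⟩
    refine (hy1 _ ⟨F.subtype (· ∈ Set.Iio x), ?_⟩).trans (le_max_left _ _)
    have : (F.subtype (· ∈ Set.Iio x)).map (Function.Embedding.subtype _) = F :=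
      Finset.subtype_map_of_mem hF
    simp only [this]
  choose nx hnx1 hnx2 using hstep
  let c : ℕ → I := fun n => nx^[n] hne.some
  have hc : ∀ n, c (n + 1) = nx (c n) := fun n => Function.iterate_succ_apply' nx n _
  have hmono : StrictMono c := strictMono_nat_of_lt_succ fun n => by
    rw [hc]; exact hnx1 _
  have hub : ∃ y : I, ∀ n, c n ≤ y := by
    have h1 : #(Set.range c) < bnum := by
      refine lt_of_le_of_lt ?_ aleph0_lt_bnum
      rw [Cardinal.le_aleph0_iff_set_countable]
      exact Set.countable_range c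
    obtain ⟨y, hy⟩ := bounded_index _ h1
    exact ⟨y, fun n => hy _ ⟨n, rfl⟩⟩
  obtain ⟨γ, hγ1, hγ2⟩ := (wellFounded_lt (α := I)).has_min {y | ∀ n, c n ≤ y} hub
  refine ⟨γ, fun F hF => ?_⟩
  have hn : ∀ x : I, ∃ n, x < γ → x < c n := by
    intro x
    by_contra hc2
    push Not at hc2
    exact hγ2 x (fun n => (hc2 n).2) (hc2 0).1
  choose m hm using hn
  have : Φ F ≤ c (F.sup m + 1) := by
    rw [hc]
    apply hnx2
    intro w hw
    exact (hm w (hF w hw)).trans_le (hmono.monotone (Finset.le_sup hw))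
  exact this.trans (hγ1 _)

/-! ### Pseudo-intersections -/

lemma pseudo_of_lt (𝒳 : Set (Set ℕ)) (h : #𝒳 < pnum)
    (hfin : ∀ F ⊆ 𝒳, F.Finite → (⋂₀ F).Infinite) :
    ∃ D : Set ℕ, D.Infinite ∧ ∀ X ∈ 𝒳, (D \ X).Finite := by
  by_contra hc
  exact notMem_of_lt_csInf' h ⟨𝒳, rfl, hfin, hc⟩

lemma pseudo_nodes {ι : Type} (X : ι → Set Node) (h : #ι < pnum)
    (hfin : ∀ F : Set ι, F.Finite → (⋂ i ∈ F, X i).Infinite) :
    ∃ u : ℕ → Node, Function.Injective u ∧ ∀ i, ∀ᶠ n in atTop, u n ∈ X i := by
  let E : Node ≃ ℕ := Denumerable.eqv Node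
  obtain ⟨D, hD, hD2⟩ := pseudo_of_lt (Set.range fun i => E '' X i)
    (Cardinal.mk_range_le.trans_lt h) (by
      intro F hF hFfin
      choose pre hpre using (fun X : F => hF X.2)
      have : Finite F := hFfin
      have hS : (Set.range pre).Finite := Set.finite_range pre
      have hSF : (fun i => E '' X i) '' (Set.range pre) = F := by
        ext Z
        constructor
        · rintro ⟨i, ⟨W, rfl⟩, rfl⟩
          have := hpre W
          simp only at this ⊢
          rw [this]; exact W.2
        · intro hZ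
          exact ⟨pre ⟨Z, hZ⟩, ⟨⟨Z, hZ⟩, rfl⟩, hpre ⟨Z, hZ⟩⟩
      set S := Set.range pre with hSdef
      have h1 : ⋂₀ F = E '' (⋂ i ∈ S, X i) := by
        rw [← hSF, Set.sInter_image]
        ext a
        simp only [Set.mem_iInter, Set.mem_image]
        constructor
        · intro h
          refine ⟨E.symm a, fun i hi => ?_, by simp⟩
          obtain ⟨b, hb, hb2⟩ := h i hi
          rw [← hb2]; simpa using hb
        · rintro ⟨b, hb, rfl⟩ i hi
          exact ⟨b, hb i hi, rfl⟩
      rw [h1]
      exact (hfin S hS).image E.injective.injOn)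
  let d := hD.natEmbedding D
  refine ⟨fun n => E.symm (d n).1, ?_, ?_⟩
  · intro a b hab
    exact d.injective (Subtype.ext (E.symm.injective hab))
  · intro i
    have h1 := hD2 _ ⟨i, rfl⟩
    have hinj : Function.Injective fun n => (d n).1 := fun a b hab =>
      d.injective (Subtype.ext hab)
    have h2 := h1.preimage (f := fun n => (d n).1) hinj.injOn
    have h3 := h2.compl_mem_cofinite
    rw [Nat.cofinite_eq_atTop] at h3
    filter_upwards [h3] with n hn
    by_contra hc
    apply hn
    refine ⟨(d n).2, ?_⟩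
    rintro ⟨b, hb, hb2⟩
    apply hc
    simp only at hb2 ⊢
    rw [← hb2]
    simpa using hb


/-! ### Topology of Dow spaces -/

lemma mem_cone_iff {s t : Node} : t ∈ cone s ↔ s <+: t := by
  constructor
  · rintro ⟨u, rfl⟩; exact List.prefix_append _ _
  · rintro ⟨u, rfl⟩; exact ⟨u, rfl⟩

/-- A sequence converges if it does so for the basic sets. -/
lemma tendsto_dow {f : Node → ℕ} {u : ℕ → Node} {t : Node}
    (h1 : ∀ᶠ n in atTop, u n ∈ cone t) (h2 : ∀ k, ∀ᶠ n in atTop, u n ∉ cone (t ++ [k]))
    (h3 : t ∈ U f → ∀ᶠ n in atTop, u n ∈ U f) :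
    Tendsto u atTop (@nhds Node (dow {f}) t) := by
  refine TopologicalSpace.tendsto_nhds_generateFrom_iff.2 ?_
  rintro V ((⟨s, rfl⟩ | ⟨s, rfl⟩) | ⟨g, hg, rfl⟩) hV
  · filter_upwards [h1] with n hn
    rw [Set.mem_preimage, mem_cone_iff]
    exact (mem_cone_iff.1 hV).trans (mem_cone_iff.1 hn)
  · -- complement of a cone
    by_cases hst : t <+: s
    · obtain ⟨v, rfl⟩ := hst
      cases v with
      | nil => exact absurd (by simpa using mem_cone_iff.2 (List.prefix_refl _)) hV
      | cons a v =>
        filter_upwards [h2 a] with n hn hc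
        apply hn
        rw [mem_cone_iff] at hc ⊢
        refine List.IsPrefix.trans ?_ hc
        exact ⟨v, by simp⟩
    · filter_upwards [h1] with n hn hc
      rw [mem_cone_iff] at hn hc
      rcases List.prefix_or_prefix_of_prefix hn hc with h | h
      · exact hst h
      · exact hV (mem_cone_iff.2 h)
  · rw [Set.mem_singleton_iff] at hg
    subst hg
    exact h3 hV

open Classical in
/-- Points of the closure: basic neighbourhoods meet the set. -/
lemma meets_of_mem_closure {e : I → Node → ℕ} {F : Finset I} {A : Set Node} {t : Node}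
    (h : t ∈ @closure Node (dow (e '' F)) A) (K : ℕ) :
    ∃ a ∈ A, a ∈ cone t ∧ (∀ k < K, a ∉ cone (t ++ [k])) ∧ ∀ x ∈ F, t ∈ U (e x) → a ∈ U (e x) := by
  let τ : TopologicalSpace Node := dow (e '' F)
  have hopen1 : IsOpen (cone t) := TopologicalSpace.isOpen_generateFrom_of_mem (Or.inl (Or.inl ⟨t, rfl⟩))
  have hopen2 : ∀ k, IsOpen (cone (t ++ [k]))ᶜ := fun k =>
    TopologicalSpace.isOpen_generateFrom_of_mem (Or.inl (Or.inr ⟨_, rfl⟩))
  have hopen3 : ∀ x ∈ F, IsOpen (U (e x)) := fun x hx =>
    TopologicalSpace.isOpen_generateFrom_of_mem (Or.inr ⟨_, ⟨x, hx, rfl⟩, rfl⟩)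
  have hV : (cone t ∩ ((⋂ k ∈ Finset.range K, (cone (t ++ [k]))ᶜ) ∩
      ⋂ x ∈ F.filter (fun x => t ∈ U (e x)), U (e x))) ∈ @nhds Node τ t := by
    refine Filter.inter_mem (hopen1.mem_nhds (mem_cone_iff.2 (List.prefix_refl _))) (Filter.inter_mem ?_ ?_)
    · rw [Filter.biInter_finset_mem]
      intro k _
      apply (hopen2 k).mem_nhds
      intro hc
      have := (mem_cone_iff.1 hc).length_le
      simp at this
    · rw [Filter.biInter_finset_mem]
      intro x hx
      rw [Finset.mem_filter] at hx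
      exact (hopen3 x hx.1).mem_nhds hx.2
  obtain ⟨a, ha, haA⟩ := mem_closure_iff_nhds.1 h _ hV
  refine ⟨a, haA, ha.1, fun k hk => ?_, fun x hx htx => ?_⟩
  · have := ha.2.1
    simp only [Set.mem_iInter] at this
    exact this k (Finset.mem_range.2 hk)
  · have := ha.2.2
    simp only [Set.mem_iInter] at this
    exact this x (Finset.mem_filter.2 ⟨hx, htx⟩)

lemma increasing_le {f : Node → ℕ} (hf : Increasing f) {s t : Node} (h : s <+: t) : f s ≤ f t := by
  obtain ⟨u, rfl⟩ := h
  by_cases hu : u = []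
  · subst hu; simp
  · exact (hf.1 s u hu).le

/-- The candidates: members of `A` passing the conditions in `F`. -/
def Cand (e : I → Node → ℕ) (A : Set Node) (t0 : Node) (F : Finset I) : Set Node :=
  {t | t ∈ A ∧ ∀ x ∈ F, t0 ∈ U (e x) → t ∈ U (e x)}

/-- There are low candidates arbitrarily far to the right. -/
def Low (e : I → Node → ℕ) (A : Set Node) (t0 : Node) (F : Finset I) (x : I) : Prop :=
  ∀ K : ℕ, ∃ a v, K ≤ a ∧ t0 ++ a :: v ∈ Cand e A t0 F ∧ (t0 ++ a :: v).sum < e x (t0 ++ [a])

lemma exists_low {e : I → Node → ℕ} (he : RobustBScale e) {A : Set Node} {t0 : Node}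
    (hA : t0 ∉ A) (hcl : ∀ F : Finset I, t0 ∈ @closure Node (dow (e '' F)) A) (F : Finset I) :
    ∃ x, Low e A t0 F x := by
  let J : Set ℕ := {a | ∃ v, t0 ++ a :: v ∈ Cand e A t0 F}
  have hJ : J.Infinite := by
    intro hfin
    obtain ⟨M, hM⟩ := hfin.bddAbove
    obtain ⟨t, htA, htc, htK, htF⟩ := meets_of_mem_closure (hcl F) (M + 1)
    obtain ⟨w, rfl⟩ := htc
    cases w with
    | nil => simp at htA; exact hA htA
    | cons a v =>
      have ha : a ∈ J := ⟨v, htA, htF⟩
      have := hM ha
      apply htK a (by omega)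
      exact ⟨v, by simp⟩
  have hch : ∀ a : ℕ, ∃ v, a ∈ J → t0 ++ a :: v ∈ Cand e A t0 F := by
    intro a
    by_cases ha : a ∈ J
    · obtain ⟨v, hv⟩ := ha
      exact ⟨v, fun _ => hv⟩
    · exact ⟨[], fun h => absurd h ha⟩
  choose v hv using hch
  have hinj : Function.Injective fun a : ℕ => t0 ++ [a] := by
    intro a b hab
    simpa using hab
  let Z : Set Node := (fun a : ℕ => t0 ++ [a]) '' J
  have hZ : Z.Infinite := hJ.image hinj.injOn
  obtain ⟨x, hx⟩ := he.unbounded Z hZ (fun s => (t0 ++ (s.getD t0.length 0) :: v (s.getD t0.length 0)).sum)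
  refine ⟨x, fun K => ?_⟩
  by_contra hc
  push Not at hc
  apply hx
  apply ((Set.finite_lt_nat K).image (fun a : ℕ => t0 ++ [a])).subset
  rintro _ ⟨⟨a, ha, rfl⟩, hlow⟩
  refine ⟨a, ?_, rfl⟩
  by_contra hKa
  have h1 := hc a (v a) (not_lt.1 hKa) (hv a ha)
  apply hlow
  have h2 : (t0 ++ [a]).getD t0.length 0 = a := by simp
  rw [h2]
  exact h1

lemma Low.mono {e : I → Node → ℕ} (he : RobustBScale e) {A : Set Node} {t0 : Node} {F : Finset I}
    {x y : I} (h : Low e A t0 F x) (hxy : x ≤ y) : Low e A t0 F y := by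
  intro K
  have hfin := (he.le_iff x y).1 hxy
  obtain ⟨M, hM⟩ := (hfin.image (fun s : Node => s.getD t0.length 0)).bddAbove
  obtain ⟨a, v, ha, hc, hlow⟩ := h (max K (M + 1))
  refine ⟨a, v, (le_max_left _ _).trans ha, hc, hlow.trans_le ?_⟩
  by_contra hne
  have := hM ⟨t0 ++ [a], hne, rfl⟩
  simp at this
  have h2 := (le_max_right K (M + 1)).trans ha
  omega

/-- **Ground model theorem**: if `p = b`, the Dow space of a robust b-scale is Frechet. -/
theorem frechet_of_eq (hpb : pnum = bnum) {e : I → Node → ℕ} (he : RobustBScale e) {A : Set Node}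
    {t0 : Node} (hcl : ∀ F : Finset I, t0 ∈ @closure Node (dow (e '' F)) A) :
    ∃ u : ℕ → Node, (∀ n, u n ∈ A) ∧ ∀ x, Tendsto u atTop (@nhds Node (dow {e x}) t0) := by
  by_cases hA : t0 ∈ A
  · refine ⟨fun _ => t0, fun _ => hA, fun x => ?_⟩
    let _ : TopologicalSpace Node := dow {e x}
    exact tendsto_const_nhds
  choose Φ hΦ using exists_low he hA hcl
  obtain ⟨γ, hγ⟩ := exists_closed Φ
  have hlow : ∀ F : Finset I, (∀ x ∈ F, x < γ) → Low e A t0 F γ := fun F hF =>
    (hΦ F).mono he (hγ F hF)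
  let X : Option (ℕ ⊕ Set.Iio γ) → Set Node := fun i => match i with
    | none => {t | ∃ a v, t = t0 ++ a :: v ∧ t ∈ A ∧ t.sum < e γ (t0 ++ [a])}
    | some (Sum.inl k) => (cone (t0 ++ [k]))ᶜ
    | some (Sum.inr δ) => {t | t0 ∈ U (e δ.1) → t ∈ U (e δ.1)}
  have hcard : #(Option (ℕ ⊕ Set.Iio γ)) < pnum := by
    rw [hpb, Cardinal.mk_option, Cardinal.mk_sum, Cardinal.lift_id, Cardinal.lift_id, Cardinal.mk_nat]
    have h1 := aleph0_lt_bnum
    exact Cardinal.add_lt_of_lt h1.le (Cardinal.add_lt_of_lt h1.le h1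
      (Cardinal.mk_Iio_toType_ord_lt γ)) (Cardinal.one_lt_aleph0.trans h1)
  obtain ⟨u, huinj, hu⟩ := pseudo_nodes X hcard (by
    intro S hS hfin
    classical
    let F : Finset I := (hS.toFinset.biUnion fun i => match i with
      | none => ∅
      | some (Sum.inl k) => ∅
      | some (Sum.inr δ) => {δ.1})
    have hF : ∀ δ : Set.Iio γ, some (Sum.inr δ) ∈ S → δ.1 ∈ F := by
      intro δ hδ
      rw [Finset.mem_biUnion]
      exact ⟨some (Sum.inr δ), hS.mem_toFinset.2 hδ, by simp⟩
    have hFγ : ∀ x ∈ F, x < γ := by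
      intro x hx
      rw [Finset.mem_biUnion] at hx
      obtain ⟨i, -, hi⟩ := hx
      rcases i with _ | (k | δ)
      · simp at hi
      · simp at hi
      · simp only [Finset.mem_singleton] at hi
        rw [hi]; exact δ.2
    obtain ⟨K0, hK0⟩ : ∃ K0 : ℕ, ∀ k, some (Sum.inl k) ∈ S → k < K0 := by
      have h1 : {k : ℕ | some (Sum.inl k) ∈ S}.Finite := by
        apply hS.preimage (f := fun k : ℕ => some (Sum.inl k))
        intro a _ b _ hab
        simpa using hab
      obtain ⟨M, hM⟩ := h1.bddAbove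
      exact ⟨M + 1, fun k hk => Nat.lt_succ_of_le (hM hk)⟩
    obtain ⟨M, hM⟩ := (hfin.image List.sum).bddAbove
    obtain ⟨a, v, ha, ⟨htA, htF⟩, hsum⟩ := hlow F hFγ (max K0 (M + 1))
    have hmem : t0 ++ a :: v ∈ ⋂ i ∈ S, X i := by
      simp only [Set.mem_iInter]
      intro i hi
      rcases i with _ | (k | δ)
      · exact ⟨a, v, rfl, htA, hsum⟩
      · intro hc
        have hk := hK0 k hi
        have ha2 := (le_max_left K0 (M + 1)).trans ha
        obtain ⟨w, hw⟩ := mem_cone_iff.1 hc
        have : k = a := by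
          rw [List.append_assoc] at hw
          have := List.append_cancel_left hw
          simp at this
          exact this.1
        omega
      · exact htF _ (hF δ hi)
    have h1 := hM ⟨_, hmem, rfl⟩
    simp only [List.sum_append, List.sum_cons] at h1
    have ha2 := (le_max_right K0 (M + 1)).trans ha
    omega)
  obtain ⟨n0, hn0⟩ := Filter.eventually_atTop.1 (hu none)
  have hshift : Tendsto (fun n : ℕ => n + n0) atTop atTop := tendsto_add_atTop_nat n0
  refine ⟨fun n => u (n + n0), fun n => ?_, fun x => ?_⟩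
  · obtain ⟨a, v, -, h, -⟩ := hn0 (n + n0) (Nat.le_add_left _ _)
    exact h
  · have hcone : ∀ k, ∀ᶠ n in atTop, u (n + n0) ∉ cone (t0 ++ [k]) := fun k =>
      hshift.eventually (hu (some (Sum.inl k)))
    apply tendsto_dow
    · apply Filter.Eventually.of_forall
      intro n
      obtain ⟨a, v, h, -, -⟩ := hn0 (n + n0) (Nat.le_add_left _ _)
      exact ⟨a :: v, h⟩
    · exact hcone
    · intro ht0
      rcases lt_or_ge x γ with hx | hx
      · filter_upwards [hshift.eventually (hu (some (Sum.inr ⟨x, hx⟩)))] with n hn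
        exact hn ht0
      · have hfin := (he.le_iff γ x).1 hx
        have hbad : ({e x t0} ∪ (fun s : Node => s.getD t0.length 0) '' {s | ¬ e γ s ≤ e x s}).Finite :=
          (Set.finite_singleton _).union (hfin.image _)
        have h3 := (Filter.eventually_all_finite hbad (l := Filter.atTop)
          (p := fun k n => u (n + n0) ∉ cone (t0 ++ [k]))).2 (fun k _ => hcone k)
        filter_upwards [h3] with n hn
        obtain ⟨a, v, htv, -, hsum⟩ := hn0 (n + n0) (Nat.le_add_left _ _)
        have hna : a ∉ ({e x t0} ∪ (fun s : Node => s.getD t0.length 0) '' {s | ¬ e γ s ≤ e x s}) := by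
          intro hc
          apply hn a hc
          rw [htv]
          exact ⟨v, by simp⟩
        generalize u (n + n0) = t at *
        intro i hi heq
        rcases lt_trichotomy i t0.length with h | h | h
        · have h4 : t[i] = t0[i] := by
            subst htv
            rw [List.getElem_append_left h]
          have h5 : t.take i = t0.take i := by
            subst htv
            rw [List.take_append_of_le_length h.le]
          rw [h4, h5] at heq
          exact ht0 i h heq
        · subst h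
          have h4 : t[t0.length] = a := by
            subst htv
            simp
          have h5 : t.take t0.length = t0 := by
            subst htv
            simp
          rw [h4, h5] at heq
          exact hna (Or.inl heq)
        · have h4 : t[i] ≤ t.sum := List.single_le_sum (by simp) _ (List.getElem_mem hi)
          have h5 : t0 ++ [a] <+: t.take i := by
            rw [htv, List.prefix_take_iff]
            refine ⟨⟨v, by simp⟩, ?_⟩
            simp; omega
          have h6 := increasing_le (he.increasing γ) h5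
          apply hna
          right
          refine ⟨t.take i, ?_, ?_⟩
          · simp only [Set.mem_ofPred_eq]
            omega
          · obtain ⟨w, hw⟩ := h5
            simp only
            rw [← hw]
            simp

end Pool.Agent.Helper50.Dow
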