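import Mathlib

/-!
# Suslin trees: distributivity and embedding into the power set of the natural numbers modulo finite
-/

open Cardinal Filter Set

namespace Pool.Agent.Helper50.Dow

/-- Suslin trees growing downwards: the predecessors of `s` are the elements above `s`, they are
well-ordered by the reversed order, every chain and every antichain is countable, the tree has
size `ℵ₁`, and every node has uncountably many extensions. -/
structure IsSuslinTree (P : Type) [PartialOrder P] : Prop where
  linear : ∀ s q r : P, s ≤ q → s ≤ r → q ≤ r ∨ r ≤ q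
  wf : WellFounded (fun q r : P => r < q)
  chain : ∀ C : Set P, IsChain (· ≤ ·) C → C.Countable
  antichain : ∀ A : Set P, IsAntichain (· ≤ ·) A → A.Countable
  card : #P = ℵ₁
  pruned : ∀ s : P, ¬ (Set.Iic s).Countable

variable {P : Type} [PartialOrder P]

lemma IsSuslinTree.countable_Ici (hP : IsSuslinTree P) (s : P) : (Set.Ici s).Countable := by
  apply hP.chain
  intro q hq r hr _
  exact hP.linear s q r hq hr

/-- A dense open set contains all but countably many nodes. -/
lemma IsSuslinTree.compl_countable (hP : IsSuslinTree P) (D : Set P)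
    (hopen : ∀ q ∈ D, ∀ r ≤ q, r ∈ D) (hdense : ∀ q, ∃ r ∈ D, r ≤ q) : (Dᶜ).Countable := by
  -- a maximal antichain inside `D`
  obtain ⟨A, hA⟩ : ∃ A : Set P, Maximal (fun A => A ⊆ D ∧ IsAntichain (· ≤ ·) A) A := by
    apply zorn_subset
    intro c hc hchain
    refine ⟨⋃₀ c, ⟨Set.sUnion_subset fun A hA => (hc hA).1, ?_⟩, fun A hA => Set.subset_sUnion_of_mem hA⟩
    rintro a ⟨A, hA, ha⟩ b ⟨B, hB, hb⟩ hab
    rcases hchain.total hA hB with h | h
    · exact (hc hB).2 (h ha) hb hab
    · exact (hc hA).2 ha (h hb) hab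
  have hcount := hP.antichain A hA.prop.2
  apply (hcount.biUnion fun a _ => hP.countable_Ici a).mono
  intro t ht
  obtain ⟨d, hd, hdt⟩ := hdense t
  -- `d` is comparable with an element of `A`
  have hcomp : ∃ a ∈ A, a ≤ d ∨ d ≤ a := by
    by_contra hc
    push Not at hc
    have hins : IsAntichain (· ≤ ·) (insert d A) := by
      apply hA.prop.2.insert
      · intro a ha _ h
        exact (hc a ha).1 h
      · intro a ha _ h
        exact (hc a ha).2 h
    have := hA.le_of_ge (y := insert d A) ⟨Set.insert_subset hd hA.prop.1, hins⟩ (Set.subset_insert _ _)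
    exact (hc d (this (Set.mem_insert _ _))).1 le_rfl
  obtain ⟨a, ha, hcomp⟩ := hcomp
  simp only [Set.mem_iUnion]
  refine ⟨a, ha, ?_⟩
  rcases hcomp with h | h
  · exact h.trans hdt
  · rcases hP.linear d a t h hdt with h2 | h2
    · exact h2
    · exact absurd (hopen a (hA.prop.1 ha) t h2) ht

/-- Countably many dense open sets have a common element below any node. -/
lemma IsSuslinTree.distributive (hP : IsSuslinTree P) {ι : Type} [Countable ι] (D : ι → Set P)
    (hopen : ∀ i, ∀ q ∈ D i, ∀ r ≤ q, r ∈ D i) (hdense : ∀ i q, ∃ r ∈ D i, r ≤ q) (p : P) :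
    ∃ q ≤ p, ∀ i, q ∈ D i := by
  by_contra hc
  push Not at hc
  apply hP.pruned p
  apply (Set.countable_iUnion fun i => hP.compl_countable (D i) (hopen i) (hdense i)).mono
  intro q hq
  obtain ⟨i, hi⟩ := hc q hq
  exact Set.mem_iUnion.2 ⟨i, hi⟩

/-- Every node has two incomparable extensions. -/
lemma IsSuslinTree.splits (hP : IsSuslinTree P) (p : P) :
    ∃ q r, q ≤ p ∧ r ≤ p ∧ ¬ q ≤ r ∧ ¬ r ≤ q := by
  by_contra hc
  push Not at hc
  apply hP.pruned p
  apply hP.chain
  intro q hq r hr _
  by_cases h : q ≤ r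
  · exact Or.inl h
  · exact Or.inr (hc q r hq hr h)

/-! ### Pieces of infinite sets -/

/-- The `n`-th piece of an infinite set. -/
noncomputable def piece (D : Set ℕ) (n : ℕ) : Set ℕ :=
  Set.range fun k => Nat.nth (· ∈ D) (Nat.pair n k)

lemma nth_inj {D : Set ℕ} (hD : D.Infinite) : Function.Injective (Nat.nth (· ∈ D)) :=
  Nat.nth_injective hD

lemma piece_subset {D : Set ℕ} (hD : D.Infinite) (n : ℕ) : piece D n ⊆ D := by
  rintro _ ⟨k, rfl⟩
  exact Nat.nth_mem_of_infinite hD _

lemma piece_infinite {D : Set ℕ} (hD : D.Infinite) (n : ℕ) : (piece D n).Infinite := by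
  apply Set.infinite_range_of_injective
  intro a b hab
  have := nth_inj hD hab
  rw [Nat.pair_eq_pair] at this
  exact this.2

lemma piece_disjoint {D : Set ℕ} (hD : D.Infinite) {n m : ℕ} (h : n ≠ m) :
    piece D n ∩ piece D m = ∅ := by
  ext a
  simp only [Set.mem_inter_iff, Set.mem_empty_iff_false, iff_false, not_and]
  rintro ⟨k, rfl⟩ ⟨l, hl⟩
  have := nth_inj hD hl
  rw [Nat.pair_eq_pair] at this
  exact h this.1.symm

/-! ### Pseudo-intersections -/

/-- A pseudo-intersection of a family, if there is one. -/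
noncomputable def psi (𝒳 : Set (Set ℕ)) : Set ℕ :=
  open Classical in
  if h : ∃ D : Set ℕ, D.Infinite ∧ ∀ X ∈ 𝒳, (D \ X).Finite then h.choose else Set.univ

lemma psi_infinite (𝒳 : Set (Set ℕ)) : (psi 𝒳).Infinite := by
  unfold psi
  split_ifs with h
  · exact h.choose_spec.1
  · exact Set.infinite_univ

lemma psi_spec {𝒳 : Set (Set ℕ)} (h : ∃ D : Set ℕ, D.Infinite ∧ ∀ X ∈ 𝒳, (D \ X).Finite) :
    ∀ X ∈ 𝒳, (psi 𝒳 \ X).Finite := by
  rw [psi, dif_pos h]
  exact h.choose_spec.2

/-- Countable families with infinite finite intersections have a pseudo-intersection. -/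
lemma exists_pseudo_of_countable {𝒳 : Set (Set ℕ)} (hc : 𝒳.Countable)
    (hfin : ∀ F ⊆ 𝒳, F.Finite → (⋂₀ F).Infinite) :
    ∃ D : Set ℕ, D.Infinite ∧ ∀ X ∈ 𝒳, (D \ X).Finite := by
  let L : Filter ℕ := Filter.cofinite ⊓ Filter.generate 𝒳
  have hNe : L.NeBot := by
    rw [Filter.inf_neBot_iff]
    intro s hs t ht
    obtain ⟨F, hFA, hFfin, hFt⟩ := Filter.mem_generate_iff.1 ht
    have h2 : (⋂₀ F \ sᶜ).Infinite := (hfin F hFA hFfin).sdiff (Filter.mem_cofinite.1 hs)
    obtain ⟨a, ha⟩ := h2.nonempty
    exact ⟨a, by simpa using ha.2, hFt ha.1⟩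
  have hcg : (Filter.generate 𝒳).IsCountablyGenerated := ⟨𝒳, hc, rfl⟩
  have hcof : (Filter.cofinite : Filter ℕ).IsCountablyGenerated := by
    rw [Nat.cofinite_eq_atTop]; infer_instance
  obtain ⟨x, hx⟩ := Filter.exists_seq_tendsto L
  have hx1 : Tendsto x atTop (Filter.cofinite) := hx.mono_right inf_le_left
  have hx2 : Tendsto x atTop (Filter.generate 𝒳) := hx.mono_right inf_le_right
  refine ⟨Set.range x, ?_, fun X hX => ?_⟩
  · intro hfin
    have := hx1.eventually hfin.compl_mem_cofinite
    obtain ⟨n, hn⟩ := this.exists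
    exact hn ⟨n, rfl⟩
  · have h1 := hx2.eventually (Filter.GenerateSets.basic hX : X ∈ Filter.generate 𝒳)
    obtain ⟨n0, hn0⟩ := Filter.eventually_atTop.1 h1
    apply ((Set.finite_lt_nat n0).image x).subset
    rintro _ ⟨⟨n, rfl⟩, hn⟩
    refine ⟨n, ?_, rfl⟩
    by_contra hc
    exact hn (hn0 n (not_lt.1 hc))

/-! ### The embedding -/

/-- Numbers of nodes which are different for siblings. -/
lemma IsSuslinTree.exists_number (hP : IsSuslinTree P) :
    ∃ ν : P → ℕ, ∀ q r, Set.Ioi q = Set.Ioi r → ν q = ν r → q = r := by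
  have h : ∀ S : Set P, ∃ f : P → ℕ, Set.InjOn f {q | Set.Ioi q = S} := by
    intro S
    have hc : {q : P | Set.Ioi q = S}.Countable := by
      apply hP.antichain
      intro q hq r hr hne hle
      have h1 : r ∈ Set.Ioi q := lt_of_le_of_ne hle hne
      have h2 : r ∈ Set.Ioi r := by
        rw [Set.mem_ofPred_eq] at hq hr
        rw [hr, ← hq]; exact h1
      exact lt_irrefl _ (Set.mem_Ioi.1 h2)
    exact Set.countable_iff_exists_injOn.1 hc
  choose f hf using h
  refine ⟨fun q => f (Set.Ioi q) q, fun q r hqr hν => ?_⟩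
  apply hf (Set.Ioi r) hqr rfl
  simp only at hν
  rw [← hν, hqr]

/-- **Embedding of a Suslin tree** into the infinite subsets of the natural numbers, modulo
finite. -/
theorem IsSuslinTree.exists_embedding (hP : IsSuslinTree P) :
    ∃ T : P → Set ℕ, (∀ s, (T s).Infinite) ∧ (∀ s q, s ≤ q → (T s \ T q).Finite) ∧
      ∀ s t, ¬ s ≤ t → ¬ t ≤ s → (T s ∩ T t).Finite := by
  obtain ⟨ν, hν⟩ := hP.exists_number
  let T : P → Set ℕ := hP.wf.fix fun s ih =>
    piece (psi {X | ∃ (q : P) (hq : s < q), X = ih q hq}) (ν s)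
  have hT : ∀ s, T s = piece (psi (T '' Set.Ioi s)) (ν s) := by
    intro s
    have h : {X | ∃ (q : P) (_ : s < q), X = T q} = T '' Set.Ioi s := by
      ext X
      constructor
      · rintro ⟨q, hq, rfl⟩; exact ⟨q, hq, rfl⟩
      · rintro ⟨q, hq, rfl⟩; exact ⟨q, hq, rfl⟩
    rw [← h]
    exact hP.wf.fix_eq _ s
  have hinf : ∀ s, (T s).Infinite := fun s => by
    rw [hT]; exact piece_infinite (psi_infinite _) _
  have hsub : ∀ s, ∀ q, s < q → (T s \ T q).Finite := by
    intro s
    induction s using hP.wf.induction with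
    | _ s ih =>
      intro q hq
      have hex : ∃ D : Set ℕ, D.Infinite ∧ ∀ X ∈ T '' Set.Ioi s, (D \ X).Finite := by
        apply exists_pseudo_of_countable
        · exact ((hP.countable_Ici s).mono Set.Ioi_subset_Ici_self).image T
        · intro F hF hFfin
          -- a lowest node among the finitely many
          rcases F.eq_empty_or_nonempty with rfl | hne
          · simpa using Set.infinite_univ
          have hlow : ∀ F : Set (Set ℕ), F.Finite → F.Nonempty → F ⊆ T '' Set.Ioi s →
              ∃ r, s < r ∧ ∀ X ∈ F, (T r \ X).Finite := by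
            intro F hFfin
            induction F, hFfin using Set.Finite.induction_on with
            | empty => intro h; exact absurd h (by simp)
            | @insert X F _ _ ihF =>
              intro _ hsubF
              obtain ⟨r1, hr1, hX⟩ := hsubF (Set.mem_insert _ _)
              rcases F.eq_empty_or_nonempty with rfl | hne
              · refine ⟨r1, hr1, fun Y hY => ?_⟩
                rw [Set.mem_insert_iff] at hY
                rcases hY with rfl | hY
                · rw [hX]; simp
                · exact absurd hY (by simp)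
              · obtain ⟨r2, hr2, h2⟩ := ihF hne ((Set.subset_insert _ _).trans hsubF)
                rcases hP.linear s r1 r2 (le_of_lt hr1) hr2.le with h | h
                · refine ⟨r1, hr1, fun Y hY => ?_⟩
                  rw [Set.mem_insert_iff] at hY
                  rcases hY with rfl | hY
                  · rw [hX]; simp
                  · rcases h.eq_or_lt with rfl | hlt
                    · exact h2 Y hY
                    · have h3 := ih r1 hr1 r2 hlt
                      apply (h3.union (h2 Y hY)).subset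
                      intro a ha
                      by_cases ha2 : a ∈ T r2
                      · exact Or.inr ⟨ha2, ha.2⟩
                      · exact Or.inl ⟨ha.1, ha2⟩
                · refine ⟨r2, hr2, fun Y hY => ?_⟩
                  rw [Set.mem_insert_iff] at hY
                  rcases hY with rfl | hY
                  · rcases h.eq_or_lt with rfl | hlt
                    · rw [hX]; simp
                    · rw [← hX]
                      exact ih r2 hr2 r1 hlt
                  · exact h2 Y hY
          obtain ⟨r, hr, hr2⟩ := hlow F hFfin hne hF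
          have h3 : (T r \ ⋂₀ F).Finite := by
            have : T r \ ⋂₀ F ⊆ ⋃ X ∈ F, (T r \ X) := by
              intro a ha
              simp only [Set.mem_diff, Set.mem_sInter, not_forall] at ha
              obtain ⟨ha1, X, hX, haX⟩ := ha
              simp only [Set.mem_iUnion]
              exact ⟨X, hX, ha1, haX⟩
            exact (hFfin.biUnion fun X hX => hr2 X hX).subset this
          intro hfin
          apply hinf r
          apply (h3.union hfin).subset
          intro a ha
          by_cases h : a ∈ ⋂₀ F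
          · exact Or.inr h
          · exact Or.inl ⟨ha, h⟩
      have h1 := psi_spec hex (T q) ⟨q, hq, rfl⟩
      apply h1.subset
      apply Set.diff_subset_diff_left
      rw [hT s]
      exact piece_subset (psi_infinite _) _
  have hsub' : ∀ s q, s ≤ q → (T s \ T q).Finite := by
    intro s q h
    rcases h.eq_or_lt with rfl | h
    · simp
    · exact hsub s q h
  refine ⟨T, hinf, hsub', fun s t hst hts => ?_⟩
  -- first ancestors where the branches split
  obtain ⟨s0, ⟨hs0, hs0t⟩, hs0min⟩ := hP.wf.has_min {q | s ≤ q ∧ ¬ t ≤ q} ⟨s, le_rfl, hts⟩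
  obtain ⟨t0, ⟨ht0, ht0s⟩, ht0min⟩ := hP.wf.has_min {q | t ≤ q ∧ ¬ s ≤ q} ⟨t, le_rfl, hst⟩
  have hS : Set.Ioi s0 = {q | s ≤ q ∧ t ≤ q} := by
    ext q
    constructor
    · intro hq
      have hsq : s ≤ q := hs0.trans (le_of_lt hq)
      refine ⟨hsq, ?_⟩
      by_contra hc
      exact hs0min q ⟨hsq, hc⟩ hq
    · rintro ⟨h1, h2⟩
      rcases hP.linear s q s0 h1 hs0 with h | h
      · exact absurd (h2.trans h) hs0t
      · refine lt_of_le_of_ne h ?_
        rintro rfl
        exact hs0t h2
  have hT0 : Set.Ioi t0 = {q | s ≤ q ∧ t ≤ q} := by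
    ext q
    constructor
    · intro hq
      have htq : t ≤ q := ht0.trans (le_of_lt hq)
      refine ⟨?_, htq⟩
      by_contra hc
      exact ht0min q ⟨htq, hc⟩ hq
    · rintro ⟨h1, h2⟩
      rcases hP.linear t q t0 h2 ht0 with h | h
      · exact absurd (h1.trans h) ht0s
      · refine lt_of_le_of_ne h ?_
        rintro rfl
        exact ht0s h1
  have hne : ν s0 ≠ ν t0 := by
    intro h
    have := hν s0 t0 (hS.trans hT0.symm) h
    subst this
    exact hs0t ht0
  have hdisj : T s0 ∩ T t0 = ∅ := by
    rw [hT s0, hT t0, hS, hT0]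
    exact piece_disjoint (psi_infinite _) hne
  apply ((hsub' s s0 hs0).union (hsub' t t0 ht0)).subset
  rintro a ⟨ha, hb⟩
  by_cases h1 : a ∈ T s0
  · right
    refine ⟨hb, fun h2 => ?_⟩
    have : a ∈ T s0 ∩ T t0 := ⟨h1, h2⟩
    rw [hdisj] at this
    exact this
  · exact Or.inl ⟨ha, h1⟩

end Pool.Agent.Helper50.Dow
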